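import Pool.Agent.H737DS.Pair

set_option autoImplicit false

/-!
MP_e517fb, Q1 (the answer is yes): there are two distance cospectral connected graphs `Γ` and `Ω`
such that `Γ` is transmission-regular and `Ω` is not.

Both graphs have `N = 14929920 * 3^24` vertices and distance spectrum
`24 N, (-N/5)^5, (-N/4)^12, (-N/3)^60, 0`.
* `Γ` is the Cartesian product of the half `12`-cube, the cocktail party graph `CP(5)` and thirty
  triangles.
* `Ω` is the Cartesian product of `Ω₀`, `K_5`, four copies of `CP(3)` and twenty-four triangles;
  here `Ω₀` consists of a half `12`-cube and a copy of its isometric subgraph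
  `K_4 □ K_4 □ K_4 □ K_4`, each point of the copy being joined to its original.
-/

namespace Pool.Agent.Results.MP_e517fb_co.TransmissionPair

open Finset

/-- The distance matrix of a graph. -/
noncomputable def distMat {V : Type} (G : SimpleGraph V) : Matrix V V ℝ :=
  Matrix.of fun u v => (G.dist u v : ℝ)

/-- Distance cospectral graphs: the (real symmetric) distance matrices have the same
characteristic polynomial, that is the same eigenvalues with the same multiplicities. -/
def DistanceCospectral {V W : Type} [Fintype V] [DecidableEq V] [Fintype W] [DecidableEq W]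
    (G : SimpleGraph V) (H : SimpleGraph W) : Prop :=
  (distMat G).charpoly = (distMat H).charpoly

/-- `δ` is the largest distance eigenvalue of `G`: the largest real root of the characteristic
polynomial of the distance matrix. -/
def LargestDistanceEigenvalue {V : Type} [Fintype V] [DecidableEq V] (G : SimpleGraph V)
    (δ : ℝ) : Prop :=
  IsGreatest {t : ℝ | (distMat G).charpoly.IsRoot t} δ

/-- The transmission of a vertex: the sum of its distances to all vertices. -/
noncomputable def transmission {V : Type} [Fintype V] (G : SimpleGraph V) (u : V) : ℕ :=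
  ∑ v, G.dist u v

/-- Transmission-regular graphs. -/
def TransmissionRegular {V : Type} [Fintype V] (G : SimpleGraph V) : Prop :=
  ∀ u v, transmission G u = transmission G v

/-- **MP_e517fb, Q1: the answer is yes.**  There are connected graphs `Γ` and `Ω` with the same
distance spectrum, with common largest distance eigenvalue `δ₀`, such that `D_Γ j = δ₀ j` (so `Γ` is
transmission-regular) but `D_Ω j ≠ δ₀ j` and `Ω` is not transmission-regular. -/
theorem result :
    ∃ (V W : Type) (_ : Fintype V) (_ : DecidableEq V) (_ : Fintype W) (_ : DecidableEq W)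
      (Γ : SimpleGraph V) (Ω : SimpleGraph W) (δ₀ : ℝ),
      Γ.Connected ∧ Ω.Connected ∧ DistanceCospectral Γ Ω ∧
      LargestDistanceEigenvalue Γ δ₀ ∧ LargestDistanceEigenvalue Ω δ₀ ∧
      (distMat Γ).mulVec (fun _ => 1) = δ₀ • (fun _ => (1 : ℝ)) ∧
      (distMat Ω).mulVec (fun _ => 1) ≠ δ₀ • (fun _ => (1 : ℝ)) ∧
      TransmissionRegular Γ ∧ ¬ TransmissionRegular Ω := by
  have hco : (distMat Pool.Agent.H737DS.Ga).charpoly = (distMat Pool.Agent.H737DS.Om).charpoly :=
    Pool.Agent.H737DS.cospectral
  have hL : LargestDistanceEigenvalue Pool.Agent.H737DS.Ga (24 * Pool.Agent.H737DS.NN) :=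
    ⟨Pool.Agent.H737DS.root_top, fun t ht => Pool.Agent.H737DS.root_Ga t ht⟩
  obtain ⟨x, y, hxy⟩ := Pool.Agent.H737DS.Om_irregular
  have hdiff : ¬ TransmissionRegular Pool.Agent.H737DS.Om := by
    intro h
    have h1 := h x y
    refine hxy ?_
    have h2 : ((transmission Pool.Agent.H737DS.Om x : ℕ) : ℝ) =
        ((transmission Pool.Agent.H737DS.Om y : ℕ) : ℝ) := by
      rw [h1]
    unfold transmission at h2
    push_cast at h2
    exact h2
  refine ⟨_, _, inferInstance, inferInstance, inferInstance, inferInstance,
    Pool.Agent.H737DS.Ga, Pool.Agent.H737DS.Om, 24 * Pool.Agent.H737DS.NN,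
    Pool.Agent.H737DS.Ga_connected, Pool.Agent.H737DS.Om_connected, hco, hL, ?_, ?_, ?_, ?_, hdiff⟩
  · unfold LargestDistanceEigenvalue at hL ⊢
    rwa [← hco]
  · funext x
    have := Pool.Agent.H737DS.Ga_trans x
    simp only [Matrix.mulVec, dotProduct, distMat, Matrix.of_apply, mul_one, Pi.smul_apply,
      smul_eq_mul]
    exact this
  · intro h
    have h1 : ∀ a, ∑ z, (Pool.Agent.H737DS.Om.dist a z : ℝ) = 24 * Pool.Agent.H737DS.NN := by
      intro a
      have h2 := congrFun h a
      simp only [Matrix.mulVec, dotProduct, distMat, Matrix.of_apply, mul_one, Pi.smul_apply,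
        smul_eq_mul] at h2
      exact h2
    exact hxy ((h1 x).trans (h1 y).symm)
  · intro a b
    have h1 : ∀ a, ((transmission Pool.Agent.H737DS.Ga a : ℕ) : ℝ) =
        24 * Pool.Agent.H737DS.NN := by
      intro a
      unfold transmission
      push_cast
      exact Pool.Agent.H737DS.Ga_trans a
    have h3 := (h1 a).trans (h1 b).symm
    exact_mod_cast h3

end Pool.Agent.Results.MP_e517fb_co.TransmissionPair
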